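import Pool.Agent.H500.ED.Stm

set_option autoImplicit false
set_option linter.unusedSectionVars false

/-!
# Project ED, part E2: lifting with diagonal matrices
-/

namespace Pool.Agent.H322.ED.LIFD

open Pool.Agent.H500.HC (QBar ZBar)
open Pool.Agent.H500.ED

/-! ### Simultaneous diagonalisation -/

/-- commuting endomorphisms of finite order have a spanning set of common eigenvectors -/
theorem diag_span {K W : Type} [Field K] [IsAlgClosed K] [CharZero K] [AddCommGroup W] [Module K W]
    [FiniteDimensional K W] {α : Type}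
    (f : α → Module.End K W) (hc : ∀ i j, Commute (f i) (f j))
    (hf : ∀ i, ∃ n : ℕ, 1 ≤ n ∧ f i ^ n = 1) :
    Submodule.span K {v | ∀ i, ∃ χ : K, f i v = χ • v} = ⊤ := by
  classical
  have hss : ∀ i, (f i).IsSemisimple := by
    intro i
    obtain ⟨n, hn1, hn⟩ := hf i
    refine Module.End.isSemisimple_of_squarefree_aeval_eq_zero (p := Polynomial.X ^ n - 1) ?_ ?_
    · refine Polynomial.Separable.squarefree ?_
      rw [Polynomial.X_pow_sub_one_separable_iff]
      have : n ≠ 0 := by omega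
      exact_mod_cast this
    · rw [map_sub, map_pow, Polynomial.aeval_X, map_one, hn, sub_self]
  have h1 := Module.End.iSup_iInf_maxGenEigenspace_eq_top_of_iSup_maxGenEigenspace_eq_top_of_commute f
    (fun i j _ => hc i j) (fun i => Module.End.iSup_maxGenEigenspace_eq_top (f i))
  rw [eq_top_iff, ← h1]
  refine iSup_le fun χ => ?_
  intro v hv
  refine Submodule.subset_span fun i => ⟨χ i, ?_⟩
  rw [Submodule.mem_iInf] at hv
  have h2 := hv i
  rw [(hss i).isFinitelySemisimple.maxGenEigenspace_eq_eigenspace] at h2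
  exact Module.End.mem_eigenspace_iff.1 h2

/-- commuting matrices of finite order can be diagonalised simultaneously -/
theorem simul_diag {K : Type} [Field K] [IsAlgClosed K] [CharZero K] {n : ℕ} {α : Type}
    (f : α → Matrix (Fin n) (Fin n) K) (hc : ∀ i j, f i * f j = f j * f i)
    (hf : ∀ i, ∃ n : ℕ, 1 ≤ n ∧ f i ^ n = 1) :
    ∃ P : GL (Fin n) K, ∀ i, ((P : Matrix (Fin n) (Fin n) K) * f i *
      ((P⁻¹ : GL (Fin n) K) : Matrix (Fin n) (Fin n) K)).IsDiag := by
  classical
  let F : α → Module.End K (Fin n → K) := fun i => Matrix.toLinAlgEquiv' (f i)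
  have hF : ∀ i, F i = Matrix.toLin' (f i) := fun i => rfl
  have hspan := diag_span F (fun i j => by
      change Matrix.toLinAlgEquiv' (f i) * Matrix.toLinAlgEquiv' (f j) =
        Matrix.toLinAlgEquiv' (f j) * Matrix.toLinAlgEquiv' (f i)
      rw [← map_mul, ← map_mul, hc]) (fun i => by
      obtain ⟨m, hm, h⟩ := hf i
      refine ⟨m, hm, ?_⟩
      change (Matrix.toLinAlgEquiv' (f i)) ^ m = 1
      rw [← map_pow, h, map_one])
  let S : Set (Fin n → K) := {v | ∀ i, ∃ χ : K, F i v = χ • v}
  have hS : ⊤ ≤ Submodule.span K S := hspan.ge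
  let b1 := Module.Basis.ofSpan hS
  have hb1 : ∀ i, b1 i ∈ S := fun i => Module.Basis.ofSpan_subset hS ⟨i, rfl⟩
  have hfin : Finite ((linearIndepOn_empty K id).extend (Set.empty_subset S)) :=
    Module.Finite.finite_basis b1
  have hcard : Nat.card ((linearIndepOn_empty K id).extend (Set.empty_subset S)) =
      Nat.card (Fin n) := by
    rw [← Module.finrank_eq_nat_card_basis b1]
    simp
  obtain ⟨e⟩ : Nonempty (((linearIndepOn_empty K id).extend (Set.empty_subset S)) ≃ Fin n) :=
    Finite.card_eq.mp hcard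
  let b : Module.Basis (Fin n) K (Fin n → K) := b1.reindex e
  have hb : ∀ j, b j ∈ S := fun j => by
    rw [Module.Basis.reindex_apply]; exact hb1 _
  let b0 : Module.Basis (Fin n) K (Fin n → K) := Pi.basisFun K (Fin n)
  let P : GL (Fin n) K := ⟨b.toMatrix b0, b0.toMatrix b, Module.Basis.toMatrix_mul_toMatrix_flip b b0,
      Module.Basis.toMatrix_mul_toMatrix_flip b0 b⟩
  refine ⟨P, fun i => ?_⟩
  have h8 : b.toMatrix b0 * LinearMap.toMatrix b0 b0 (F i) * b0.toMatrix b =
      LinearMap.toMatrix b b (F i) :=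
    basis_toMatrix_mul_linearMap_toMatrix_mul_basis_toMatrix b b0 b b0 (F i)
  have h9 : LinearMap.toMatrix b0 b0 (F i) = f i := by
    change LinearMap.toMatrix' (Matrix.toLin' (f i)) = f i
    exact LinearMap.toMatrix'_toLin' (f i)
  change (b.toMatrix b0 * f i * b0.toMatrix b).IsDiag
  rw [h9] at h8
  rw [h8]
  intro x y hxy
  rw [LinearMap.toMatrix_apply]
  obtain ⟨c, hc⟩ := hb y i
  rw [hc, map_smul, Finsupp.smul_apply, Module.Basis.repr_self, Finsupp.single_apply,
    if_neg (Ne.symm hxy), smul_zero]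

/-! ### Matching of characters -/

/-- equal sums of characters, `n! ≠ 0`: the characters agree up to a permutation -/
theorem match_chars {A k : Type} [Monoid A] [Field k] {n : ℕ} (hn : ((n.factorial : ℕ) : k) ≠ 0)
    (χ ψ : Fin n → (A →* k)) (h : ∀ a, ∑ i, χ i a = ∑ i, ψ i a) :
    ∃ π : Fin n ≃ Fin n, ∀ i, ψ (π i) = χ i := by
  classical
  have hkey : ∀ φ : Fin n → (A →* k), ∀ a, ∑ i, φ i a =
      ∑ c ∈ Finset.univ.image φ, ((Finset.univ.filter fun i => φ i = c).card : k) * c a := by
    intro φ a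
    rw [← Finset.sum_fiberwise_of_maps_to (s := Finset.univ) (t := Finset.univ.image φ) (g := φ)
      (fun i _ => Finset.mem_image_of_mem _ (Finset.mem_univ i))]
    refine Finset.sum_congr rfl fun c _ => ?_
    rw [← nsmul_eq_mul, ← Finset.sum_const]
    refine Finset.sum_congr rfl fun i hi => ?_
    rw [(Finset.mem_filter.1 hi).2]
  let S : Finset (A →* k) := Finset.univ.image χ ∪ Finset.univ.image ψ
  have hext : ∀ φ : Fin n → (A →* k), Finset.univ.image φ ⊆ S → ∀ a, ∑ i, φ i a =
      ∑ c ∈ S, ((Finset.univ.filter fun i => φ i = c).card : k) * c a := by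
    intro φ hφ a
    rw [hkey φ a]
    refine Finset.sum_subset hφ fun c _ hc => ?_
    have h0 : (Finset.univ.filter fun i => φ i = c) = ∅ := by
      rw [Finset.filter_eq_empty_iff]
      intro i _ hi
      exact hc (Finset.mem_image.2 ⟨i, Finset.mem_univ i, hi⟩)
    rw [h0]
    simp
  have hli := linearIndependent_monoidHom A k
  rw [linearIndependent_iff'] at hli
  have hcoef : ∀ c ∈ S, ((Finset.univ.filter fun i => χ i = c).card : k) -
      ((Finset.univ.filter fun i => ψ i = c).card : k) = 0 := by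
    refine hli S _ ?_
    funext a
    have h1 := h a
    rw [hext χ Finset.subset_union_left a, hext ψ Finset.subset_union_right a] at h1
    rw [Finset.sum_apply]
    simp only [Pi.smul_apply, smul_eq_mul, Pi.zero_apply, sub_mul, Finset.sum_sub_distrib]
    rw [h1, sub_self]
  have hle : ∀ φ : Fin n → (A →* k), ∀ c, (Finset.univ.filter fun i => φ i = c).card ≤ n := by
    intro φ c
    have := Finset.card_filter_le (Finset.univ : Finset (Fin n)) (fun i => φ i = c)
    simpa using this
  have hinj : ∀ a b : ℕ, a ≤ n → b ≤ n → a < b → (a : k) ≠ (b : k) := by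
    intro a b ha hb hab he
    have h1 : ((b - a : ℕ) : k) = 0 := by
      rw [Nat.cast_sub hab.le, he, sub_self]
    have h2 : (b - a) ∣ n.factorial := Nat.dvd_factorial (by omega) (by omega)
    obtain ⟨c, hc⟩ := h2
    apply hn
    rw [hc, Nat.cast_mul, h1, zero_mul]
  have hcard : ∀ c, (Finset.univ.filter fun i => χ i = c).card =
      (Finset.univ.filter fun i => ψ i = c).card := by
    intro c
    by_cases hc : c ∈ S
    · have h1 := sub_eq_zero.1 (hcoef c hc)
      rcases lt_trichotomy (Finset.univ.filter fun i => χ i = c).card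
        (Finset.univ.filter fun i => ψ i = c).card with h2 | h2 | h2
      · exact absurd h1 (hinj _ _ (hle _ _) (hle _ _) h2)
      · exact h2
      · exact absurd h1.symm (hinj _ _ (hle _ _) (hle _ _) h2)
    · have h0 : ∀ φ : Fin n → (A →* k), Finset.univ.image φ ⊆ S →
          (Finset.univ.filter fun i => φ i = c) = ∅ := by
        intro φ hφ
        rw [Finset.filter_eq_empty_iff]
        intro i _ hi
        exact hc (hφ (Finset.mem_image.2 ⟨i, Finset.mem_univ i, hi⟩))
      rw [h0 χ Finset.subset_union_left, h0 ψ Finset.subset_union_right]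
  have he : ∀ c, Nonempty ({i // χ i = c} ≃ {i // ψ i = c}) := by
    intro c
    refine ⟨Fintype.equivOfCardEq ?_⟩
    rw [Fintype.card_subtype, Fintype.card_subtype]
    exact hcard c
  let E : Fin n ≃ Fin n := Equiv.ofFiberEquiv (fun c => (he c).some)
  exact ⟨E, fun i => Equiv.ofFiberEquiv_map _ i⟩

/-! ### The theorem -/

theorem main : S_LIFT → S_LIFD := by
  intro hL G _ U n k _ _ r ρ hfin hcard hfact hd
  classical
  obtain ⟨σ, hσ⟩ := hL ρ.range n k r ρ.range.subtype hcard
  -- the abelian group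
  let A : Subgroup ρ.range := U.map ρ.rangeRestrict
  have hAd : ∀ a ∈ A, ((a : GL (Fin n) k) : Matrix (Fin n) (Fin n) k).IsDiag := by
    rintro a ⟨u, hu, rfl⟩
    exact hd u hu
  have hAc : ∀ a ∈ A, ∀ b ∈ A, a * b = b * a := by
    intro a ha b hb
    apply Subtype.ext
    apply Units.ext
    change ((a : GL (Fin n) k) : Matrix (Fin n) (Fin n) k) * ((b : GL (Fin n) k) : Matrix _ _ k) =
      ((b : GL (Fin n) k) : Matrix (Fin n) (Fin n) k) * ((a : GL (Fin n) k) : Matrix _ _ k)
    rw [← (hAd a ha).diagonal_diag, ← (hAd b hb).diagonal_diag, Matrix.diagonal_mul_diagonal,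
      Matrix.diagonal_mul_diagonal]
    congr 1
    funext i
    exact mul_comm _ _
  have hm : 0 < Nat.card ρ.range := Nat.card_pos
  obtain ⟨P, hP⟩ := simul_diag (K := QBar) (n := n) (α := A)
    (fun a => (σ a : Matrix (Fin n) (Fin n) QBar)) (fun a b => by
      rw [← Units.val_mul, ← Units.val_mul, ← map_mul, ← map_mul, hAc a a.2 b b.2])
    (fun a => ⟨Nat.card ρ.range, hm, by
      rw [← Units.val_pow_eq_pow_val, ← map_pow, pow_card_eq_one', map_one, Units.val_one]⟩)
  -- the conjugate representation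
  let σ1 : ρ.range →* GL (Fin n) QBar := ((MulAut.conj P).toMonoidHom).comp σ
  have hσ1 : ∀ a, (σ1 a : Matrix (Fin n) (Fin n) QBar) = (P : Matrix (Fin n) (Fin n) QBar) * σ a *
      ((P⁻¹ : GL (Fin n) QBar) : Matrix (Fin n) (Fin n) QBar) := fun a => rfl
  have hσ1d : ∀ a ∈ A, (σ1 a : Matrix (Fin n) (Fin n) QBar).IsDiag := fun a ha => hP ⟨a, ha⟩
  have hσ1t : ∀ a, (σ1 a : Matrix (Fin n) (Fin n) QBar).trace =
      (σ a : Matrix (Fin n) (Fin n) QBar).trace := by
    intro a
    rw [hσ1]
    exact Matrix.trace_units_conj _ _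
  -- the diagonal characters
  have hdm : ∀ {F : Type} [Field F] (X Y : Matrix (Fin n) (Fin n) F), X.IsDiag → Y.IsDiag →
      ∀ i, (X * Y) i i = X i i * Y i i := by
    intro F _ X Y hX hY i
    rw [← hX.diagonal_diag, ← hY.diagonal_diag, Matrix.diagonal_mul_diagonal]
    simp
  have hdp : ∀ a ∈ A, ∀ i, ((σ1 a : Matrix (Fin n) (Fin n) QBar) i i) ^ Nat.card ρ.range = 1 := by
    intro a ha i
    have h1 : (σ1 a : Matrix (Fin n) (Fin n) QBar) ^ Nat.card ρ.range = 1 := by
      rw [← Units.val_pow_eq_pow_val, ← map_pow, pow_card_eq_one', map_one, Units.val_one]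
    have h2 := congrFun (congrFun h1 i) i
    rw [← (hσ1d a ha).diagonal_diag, Matrix.diagonal_pow] at h2
    simpa using h2
  have hint : ∀ a ∈ A, ∀ i, IsIntegral ℤ ((σ1 a : Matrix (Fin n) (Fin n) QBar) i i) := by
    intro a ha i
    refine IsIntegral.of_pow hm ?_
    rw [hdp a ha i]
    exact isIntegral_one
  let τ : Fin n → (A →* ZBar) := fun i =>
    { toFun := fun a => ⟨(σ1 a : Matrix (Fin n) (Fin n) QBar) i i, hint a a.2 i⟩
      map_one' := by
        apply Subtype.ext
        change (σ1 ((1 : A) : ρ.range) : Matrix (Fin n) (Fin n) QBar) i i = 1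
        rw [Subgroup.coe_one, map_one, Units.val_one, Matrix.one_apply_eq]
      map_mul' := fun a b => by
        apply Subtype.ext
        change (σ1 ((a * b : A) : ρ.range) : Matrix (Fin n) (Fin n) QBar) i i =
          (σ1 (a : ρ.range) : Matrix (Fin n) (Fin n) QBar) i i *
          (σ1 (b : ρ.range) : Matrix (Fin n) (Fin n) QBar) i i
        rw [Subgroup.coe_mul, map_mul, Units.val_mul]
        exact hdm _ _ (hσ1d a a.2) (hσ1d b b.2) i }
  have hτ : ∀ i (a : A), ((τ i a : ZBar) : QBar) = (σ1 a : Matrix (Fin n) (Fin n) QBar) i i :=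
    fun i a => rfl
  let χ : Fin n → (A →* k) := fun i => (r : ZBar →* k).comp (τ i)
  let δ : Fin n → (A →* k) := fun i =>
    { toFun := fun a => ((a : ρ.range) : GL (Fin n) k).1 i i
      map_one' := by
        change (1 : Matrix (Fin n) (Fin n) k) i i = 1
        rw [Matrix.one_apply_eq]
      map_mul' := fun a b => by
        exact hdm _ _ (hAd a a.2) (hAd b b.2) i }
  obtain ⟨π, hπ⟩ := match_chars hfact δ χ (by
    intro a
    obtain ⟨z, hz1, hz2⟩ := hσ a
    have h1 : z = ∑ i, τ i a := by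
      have h0 : algebraMap ZBar QBar z = algebraMap ZBar QBar (∑ i, τ i a) := by
        rw [map_sum]
        refine (hz1.symm.trans (hσ1t a).symm).trans ?_
        rfl
      exact NumberField.RingOfIntegers.coe_injective h0
    change ∑ i, ((a : ρ.range) : GL (Fin n) k).1 i i = ∑ i, r (τ i a)
    rw [← map_sum, ← h1, hz2]
    rfl)
  -- the representation
  let ρ' : G →* GL (Fin n) QBar := (Units.map
    ((Matrix.reindexAlgEquiv QBar QBar π.symm : Matrix (Fin n) (Fin n) QBar ≃ₐ[QBar]
      Matrix (Fin n) (Fin n) QBar) : Matrix (Fin n) (Fin n) QBar →*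
      Matrix (Fin n) (Fin n) QBar)).comp (σ1.comp ρ.rangeRestrict)
  have hρ' : ∀ g, (ρ' g : Matrix (Fin n) (Fin n) QBar) =
      (σ1 (ρ.rangeRestrict g) : Matrix (Fin n) (Fin n) QBar).submatrix π π := fun g => rfl
  refine ⟨ρ', ?_, ?_, ?_⟩
  · intro g hg
    have h1 : ρ.rangeRestrict g = 1 := by
      apply Subtype.ext
      exact MonoidHom.mem_ker.1 hg
    rw [MonoidHom.mem_ker]
    change Units.map _ (σ1 (ρ.rangeRestrict g)) = 1
    rw [h1, map_one, map_one]
  · intro g
    obtain ⟨z, hz1, hz2⟩ := hσ (ρ.rangeRestrict g)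
    refine ⟨z, ?_, hz2⟩
    rw [← hz1, ← hσ1t, hρ']
    change ∑ i, (σ1 (ρ.rangeRestrict g) : Matrix (Fin n) (Fin n) QBar) (π i) (π i) =
      ∑ i, (σ1 (ρ.rangeRestrict g) : Matrix (Fin n) (Fin n) QBar) i i
    exact Equiv.sum_comp π
      (fun i => (σ1 (ρ.rangeRestrict g) : Matrix (Fin n) (Fin n) QBar) i i)
  · intro u hu
    have ha : ρ.rangeRestrict u ∈ A := ⟨u, hu, rfl⟩
    refine ⟨?_, fun i => ⟨τ (π i) ⟨_, ha⟩, Nat.card ρ.range, ?_, ?_, hm, hcard, ?_⟩⟩
    · rw [hρ']
      exact (hσ1d _ ha).submatrix π.injective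
    · rw [hτ]
      rfl
    · have h1 := congrArg (fun f : A →* k => f ⟨_, ha⟩) (hπ i)
      exact h1
    · apply Subtype.ext
      change ((σ1 (ρ.rangeRestrict u) : Matrix (Fin n) (Fin n) QBar) (π i) (π i)) ^
        Nat.card ρ.range = 1
      exact hdp _ ha (π i)

end Pool.Agent.H322.ED.LIFD
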